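import Pool.Agent.VMX.StmtsF

/-!
# VMX row PFE: Perron and Frobenius
-/

set_option autoImplicit false

open Matrix Filter Topology

namespace Pool.Agent.VMX.H81

open Pool.Agent.PFS Pool.Agent.PFJ Pool.Agent.NBT

section PF

variable {n : ℕ}

/-- an order unit of a convex cone -/
theorem exists_ounit {D : Set (V n)} (h0 : (0 : V n) ∈ D) (hadd : ∀ x ∈ D, ∀ y ∈ D, x + y ∈ D)
    (hsm : ∀ x ∈ D, ∀ t : ℝ, 0 ≤ t → t • x ∈ D) :
    ∃ u ∈ D, ∀ v ∈ D, ∃ M : ℝ, 0 < M ∧ M • u - v ∈ D := by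
  classical
  obtain ⟨s, hs, hspan⟩ := (Submodule.fg_span_iff_fg_span_finset_subset (R := ℝ) D).1
    (IsNoetherian.noetherian _)
  have hsum : ∀ (s' : Finset (V n)) (f : V n → V n), (∀ a ∈ s', f a ∈ D) →
      ∑ a ∈ s', f a ∈ D := by
    intro s' f
    induction s' using Finset.induction_on with
    | empty => intro _; simpa using h0
    | insert a s' ha ih =>
      intro h
      rw [Finset.sum_insert ha]
      exact hadd _ (h a (Finset.mem_insert_self a s')) _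
        (ih fun i hi => h i (Finset.mem_insert_of_mem hi))
  refine ⟨∑ a ∈ s, a, hsum s (fun a => a) fun a ha => hs ha, ?_⟩
  intro v hv
  have hv' : v ∈ Submodule.span ℝ (s : Set (V n)) := by
    rw [← hspan]
    exact Submodule.subset_span hv
  obtain ⟨c, -, hc⟩ := Submodule.mem_span_finset.1 hv'
  refine ⟨1 + ∑ a ∈ s, |c a|, ?_, ?_⟩
  · have := Finset.sum_nonneg (s := s) fun a _ => abs_nonneg (c a)
    linarith
  · have h1 : (1 + ∑ a ∈ s, |c a|) • ∑ a ∈ s, a - v =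
        ∑ a ∈ s, ((1 + ∑ a ∈ s, |c a|) - c a) • a := by
      rw [← hc, Finset.smul_sum, ← Finset.sum_sub_distrib]
      exact Finset.sum_congr rfl fun a _ => (sub_smul _ _ _).symm
    rw [h1]
    refine hsum s _ fun a ha => hsm a (hs ha) _ ?_
    have h2 := Finset.single_le_sum (f := fun a => |c a|) (fun a _ => abs_nonneg _) ha
    have h3 := le_abs_self (c a)
    linarith

/-- the improvement step -/
theorem pfe_eps {D : Set (V n)} (H : V n →ₗ[ℝ] V n) (φ : V n →ₗ[ℝ] ℝ) (hD : IsClosed D) (hadd : ∀ x ∈ D, ∀ y ∈ D, x + y ∈ D)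
    (hsm : ∀ x ∈ D, ∀ t : ℝ, 0 ≤ t → t • x ∈ D) (hH : ∀ x ∈ D, H x ∈ D)
    (hφ : ∀ x ∈ D, x ≠ 0 → 0 < φ x) (hS : IsCompact {x : V n | x ∈ D ∧ φ x = 1})
    {x₀ : V n} (hx₀ : x₀ ∈ D) (hx₀' : φ x₀ = 1) {u : V n} (hu : u ∈ D) (hu' : 0 < φ u)
    (hun : ∀ v ∈ D, ∃ M : ℝ, 0 < M ∧ M • u - v ∈ D) {R₀ : ℝ}
    (hR₀ : ∀ x ∈ D, φ x = 1 → φ (H x) ≤ R₀) {ε : ℝ} (hε : 0 < ε) (hε1 : ε ≤ 1) :
    ∃ x ∈ D, φ x = 1 ∧ ∃ r : ℝ, 0 ≤ r ∧ r ≤ R₀ + φ u ∧ H x + (ε * φ x) • u = r • x := by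
  have hHc : Continuous H := H.continuous_of_finiteDimensional
  have hφc : Continuous φ := φ.continuous_of_finiteDimensional
  have hφ0 : ∀ x ∈ D, 0 ≤ φ x := by
    intro x hx
    rcases eq_or_ne x 0 with h | h
    · rw [h, map_zero]
    · exact (hφ x hx h).le
  -- the bound of `t`
  have hbd : ∀ x ∈ D, φ x = 1 → ∀ t : ℝ, H x + (ε * φ x) • u - t • x ∈ D →
      t ≤ R₀ + φ u := by
    intro x hx hx1 t ht
    have h1 := hφ0 _ ht
    rw [map_sub, map_add, map_smul, map_smul, smul_eq_mul, smul_eq_mul, hx1, mul_one,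
      mul_one] at h1
    have h2 := hR₀ x hx hx1
    nlinarith
  have hcont : Continuous (fun p : V n × ℝ => H p.1 + (ε * φ p.1) • u - p.2 • p.1) :=
    ((hHc.comp continuous_fst).add ((continuous_const.mul (hφc.comp continuous_fst)).smul
      continuous_const)).sub (continuous_snd.smul continuous_fst)
  set P : Set (V n × ℝ) := {p | (p.1 ∈ D ∧ φ p.1 = 1) ∧ p.2 ∈ Set.Icc 0 (R₀ + φ u) ∧
    H p.1 + (ε * φ p.1) • u - p.2 • p.1 ∈ D} with hP
  have hPc : IsCompact P := by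
    have h1 : P = ({x : V n | x ∈ D ∧ φ x = 1} ×ˢ Set.Icc 0 (R₀ + φ u)) ∩
        (fun p : V n × ℝ => H p.1 + (ε * φ p.1) • u - p.2 • p.1) ⁻¹' D := by
      ext p
      constructor
      · rintro ⟨h1, h2, h3⟩
        exact ⟨⟨h1, h2⟩, h3⟩
      · rintro ⟨⟨h1, h2⟩, h3⟩
        exact ⟨h1, h2, h3⟩
    rw [h1]
    exact (hS.prod isCompact_Icc).inter_right (hD.preimage hcont)
  have hmem0 : H x₀ + (ε * φ x₀) • u - (0 : ℝ) • x₀ ∈ D := by
    rw [zero_smul, sub_zero]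
    refine hadd _ (hH _ hx₀) _ (hsm _ hu _ ?_)
    rw [hx₀', mul_one]
    exact hε.le
  have hPn : P.Nonempty :=
    ⟨(x₀, 0), ⟨hx₀, hx₀'⟩, ⟨le_rfl, hbd x₀ hx₀ hx₀' 0 hmem0⟩, hmem0⟩
  obtain ⟨⟨x, r⟩, ⟨⟨hx, hx1⟩, ⟨hr0, hrR⟩, hxr⟩, hmax⟩ :=
    hPc.exists_isMaxOn hPn (f := fun p : V n × ℝ => p.2) continuous_snd.continuousOn
  simp only at hx hx1 hr0 hrR hxr
  refine ⟨x, hx, hx1, r, hr0, hrR, ?_⟩
  by_contra hne
  set y : V n := H x + (ε * φ x) • u - r • x with hy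
  have hy0 : y ≠ 0 := fun h => hne (sub_eq_zero.1 h)
  have hφy := hφ y hxr hy0
  set x' : V n := H x + (ε * φ x) • u with hx'
  have hx'D : x' ∈ D := by
    refine hadd _ (hH _ hx) _ (hsm _ hu _ ?_)
    rw [hx1, mul_one]
    exact hε.le
  have hφx' : 0 < φ x' := by
    have h1 : φ x' = φ (H x) + ε * φ u := by
      rw [hx', map_add, map_smul, smul_eq_mul, hx1, mul_one]
    rw [h1]
    have h2 := hφ0 _ (hH _ hx)
    have h3 := mul_pos hε hu'
    linarith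
  obtain ⟨M, hM, hMx⟩ := hun x' hx'D
  set δ : ℝ := ε * φ y / M with hδ
  have hδ0 : 0 < δ := by positivity
  have hkey : H x' + (ε * φ x') • u - (r + δ) • x' ∈ D := by
    have h1 : H x' + (ε * φ x') • u - (r + δ) • x' = H y + δ • (M • u - x') := by
      have h2 : δ * M = ε * φ y := by
        rw [hδ]
        field_simp
      have h3 : H x' = H y + r • H x := by
        have h4 : y = x' - r • x := rfl
        rw [h4, map_sub, map_smul]
        abel
      have h5 : φ y = φ x' - r * φ x := by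
        have h4 : y = x' - r • x := rfl
        rw [h4, map_sub, map_smul, smul_eq_mul]
      rw [smul_sub, smul_smul, h2, h3, h5]
      have h6 : r • x' = r • H x + (r * (ε * φ x)) • u := by
        rw [hx', smul_add, smul_smul]
      rw [add_smul, h6]
      module
    rw [h1]
    exact hadd _ (hH _ hxr) _ (hsm _ hMx _ hδ0.le)
  -- normalise
  set c : ℝ := (φ x')⁻¹ with hc
  have hc0 : 0 < c := inv_pos.2 hφx'
  have hcD : c • x' ∈ D := hsm _ hx'D _ hc0.le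
  have hc1 : φ (c • x') = 1 := by
    rw [map_smul, smul_eq_mul, hc, inv_mul_cancel₀ hφx'.ne']
  have hcm : H (c • x') + (ε * φ (c • x')) • u - (r + δ) • (c • x') ∈ D := by
    have h1 : H (c • x') + (ε * φ (c • x')) • u - (r + δ) • (c • x') =
        c • (H x' + (ε * φ x') • u - (r + δ) • x') := by
      rw [map_smul, map_smul, smul_eq_mul]
      module
    rw [h1]
    exact hsm _ hkey _ hc0.le
  have hin : ((c • x', r + δ) : V n × ℝ) ∈ P :=
    ⟨⟨hcD, hc1⟩, ⟨by positivity, hbd _ hcD hc1 _ hcm⟩, hcm⟩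
  have h9 : r + δ ≤ r := hmax hin
  linarith

end PF

theorem pfe (hpof : PofStmt) : PfeStmt := by
  intro n C hC D H hD hDC hadd hsm hH hH0 ⟨z, hz, hz0⟩
  obtain ⟨φ, hφ⟩ := hpof n C hC
  have hHc : Continuous H := H.continuous_of_finiteDimensional
  have hφc : Continuous φ := φ.continuous_of_finiteDimensional
  have h0 : (0 : V n) ∈ D := by
    have := hsm z hz 0 le_rfl
    rwa [zero_smul] at this
  have hφD : ∀ x ∈ D, x ≠ 0 → 0 < φ x := fun x hx hx0 => hφ x (hDC hx) hx0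
  -- the base is compact
  have hsph : IsCompact {x : V n | x ∈ D ∧ ‖x‖ = 1} := by
    refine (isCompact_sphere (0 : V n) 1).of_isClosed_subset
      (hD.inter (isClosed_eq continuous_norm continuous_const)) ?_
    rintro x ⟨-, hx⟩
    rw [mem_sphere_zero_iff_norm]
    exact hx
  have hnz : 0 < ‖z‖ := norm_pos_iff.2 hz0
  obtain ⟨q, ⟨hq, hq1⟩, hqm⟩ := hsph.exists_isMinOn (f := fun x => φ x)
    ⟨‖z‖⁻¹ • z, hsm _ hz _ (inv_nonneg.2 hnz.le), by
      rw [norm_smul, norm_inv, norm_norm, inv_mul_cancel₀ hnz.ne']⟩ hφc.continuousOn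
  have hq0 : q ≠ 0 := by
    intro h
    rw [h, norm_zero] at hq1
    exact one_ne_zero hq1.symm
  have hc0 := hφD q hq hq0
  have hcoer : ∀ x ∈ D, φ q * ‖x‖ ≤ φ x := by
    intro x hx
    rcases eq_or_ne x 0 with h | h
    · rw [h, map_zero, norm_zero, mul_zero]
    · have hn : 0 < ‖x‖ := norm_pos_iff.2 h
      have h1 : φ q ≤ φ (‖x‖⁻¹ • x) := hqm ⟨hsm _ hx _ (inv_nonneg.2 hn.le), by
        rw [norm_smul, norm_inv, norm_norm, inv_mul_cancel₀ hn.ne']⟩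
      rw [map_smul, smul_eq_mul, inv_mul_eq_div, le_div_iff₀ hn] at h1
      exact h1
  have hS : IsCompact {x : V n | x ∈ D ∧ φ x = 1} := by
    refine (isCompact_closedBall (0 : V n) (φ q)⁻¹).of_isClosed_subset
      (hD.inter (isClosed_eq hφc continuous_const)) ?_
    rintro x ⟨hx, hx1⟩
    rw [mem_closedBall_zero_iff, inv_eq_one_div, le_div_iff₀ hc0, mul_comm]
    have := hcoer x hx
    have h2 : φ x = 1 := hx1
    linarith
  have hφz := hφD z hz hz0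
  have hx₀ : (φ z)⁻¹ • z ∈ D := hsm _ hz _ (inv_nonneg.2 hφz.le)
  have hx₀' : φ ((φ z)⁻¹ • z) = 1 := by
    rw [map_smul, smul_eq_mul, inv_mul_cancel₀ hφz.ne']
  obtain ⟨u, hu, hun⟩ := exists_ounit h0 hadd hsm
  have hu0 : u ≠ 0 := by
    intro h
    obtain ⟨M, hM, hMz⟩ := hun z hz
    rw [h, smul_zero, zero_sub] at hMz
    exact hz0 (hC.salient z (hDC hz) (hDC hMz))
  have hu' := hφD u hu hu0
  obtain ⟨R₀, hR₀⟩ := (hS.image (hφc.comp hHc)).bddAbove
  have hR₀' : ∀ x ∈ D, φ x = 1 → φ (H x) ≤ R₀ := fun x hx hx1 =>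
    hR₀ ⟨x, ⟨hx, hx1⟩, rfl⟩
  -- the perturbed eigenvectors
  have hε : ∀ j : ℕ, (0 : ℝ) < 1 / ((j : ℝ) + 1) := fun j => by positivity
  have hε1 : ∀ j : ℕ, 1 / ((j : ℝ) + 1) ≤ (1 : ℝ) := fun j => by
    rw [div_le_one (by positivity)]
    have : (0 : ℝ) ≤ j := Nat.cast_nonneg j
    linarith
  choose x hx hx1 r hr0 hrR hxr using fun j : ℕ =>
    pfe_eps H φ hD hadd hsm hH hφD hS hx₀ hx₀' hu hu' hun hR₀' (hε j) (hε1 j)
  obtain ⟨⟨a, s⟩, ⟨⟨haD, ha1⟩, hs0, -⟩, ψ, hψ, hlim⟩ :=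
    (hS.prod (isCompact_Icc (a := (0 : ℝ)) (b := R₀ + φ u))).tendsto_subseq
      (x := fun j => (x j, r j)) fun j => ⟨⟨hx j, hx1 j⟩, hr0 j, hrR j⟩
  simp only at haD ha1 hs0
  have hl1 : Tendsto (fun j => x (ψ j)) atTop (𝓝 a) :=
    (continuous_fst.tendsto (a, s)).comp hlim
  have hl2 : Tendsto (fun j => r (ψ j)) atTop (𝓝 s) :=
    (continuous_snd.tendsto (a, s)).comp hlim
  have hl3 : Tendsto (fun j => H (x (ψ j)) + (1 / (((ψ j : ℕ) : ℝ) + 1) * φ (x (ψ j))) • u)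
      atTop (𝓝 (H a + ((0 : ℝ) * φ a) • u)) := by
    refine ((hHc.tendsto a).comp hl1).add (Tendsto.smul_const (Tendsto.mul ?_
      ((hφc.tendsto a).comp hl1)) u)
    exact tendsto_one_div_add_atTop_nhds_zero_nat.comp hψ.tendsto_atTop
  have hl4 : Tendsto (fun j => r (ψ j) • x (ψ j)) atTop (𝓝 (s • a)) := hl2.smul hl1
  have heq : H a = s • a := by
    have h1 : H a + ((0 : ℝ) * φ a) • u = s • a := by
      refine tendsto_nhds_unique hl3 (hl4.congr fun j => ?_)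
      exact (hxr (ψ j)).symm
    rwa [zero_mul, zero_smul, add_zero] at h1
  have ha0 : a ≠ 0 := by
    intro h
    rw [h, map_zero] at ha1
    exact zero_ne_one ha1
  refine ⟨a, haD, ha0, s, ?_, heq⟩
  rcases hs0.eq_or_lt with h | h
  · exfalso
    refine ha0 (hH0 a haD ?_)
    rw [heq, ← h, zero_smul]
  · exact h

end Pool.Agent.VMX.H81
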