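import Pool.Agent.VMX.StmtsF

/-!
# VMX row SUB: a minimal subfamily is a properly embedded simplex
-/

set_option autoImplicit false

open Matrix Filter Topology

namespace Pool.Agent.VMX.H81

open Pool.Agent.PFS Pool.Agent.PFJ Pool.Agent.NBT

theorem sub : SubStmt := by
  intro n C Γ hcc m q hq hsum
  classical
  have hex : ∃ k : ℕ, ∃ I : Finset (Fin m), I.card = k ∧ ∑ i ∈ I, q i ∈ C :=
    ⟨_, Finset.univ, rfl, hsum⟩
  obtain ⟨I, hI1, hI2⟩ := Nat.find_spec hex
  have hmin := fun (k : ℕ) (hk : k < Nat.find hex) => Nat.find_min hex hk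
  have hcl : ∀ i, q i ∈ closure C := by
    intro i
    obtain ⟨t, ht, u, hu, h1⟩ := hq i
    rw [h1]
    exact hcc.toPCone.cl_smul hu.2.1 ht.le
  have hs : ∑ j : Fin I.card, q (I.equivFin.symm j).1 = ∑ i ∈ I, q i := by
    rw [Equiv.sum_comp I.equivFin.symm (fun x => q x.1), Finset.sum_coe_sort I q]
  refine ⟨I.card, fun j => (I.equivFin.symm j).1,
    Subtype.val_injective.comp I.equivFin.symm.injective, ?_, fun j => hq _⟩
  refine Pool.Agent.PFS.H60.crt n C hcc.toPCone (Fin I.card) _ (fun j => hcl _) ?_ ?_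
  · rw [hs]
    exact hI2
  · intro i hi
    rw [Finset.sum_erase_eq_sub (Finset.mem_univ i), hs,
      ← Finset.sum_erase_eq_sub (I.equivFin.symm i).2] at hi
    refine hmin (I.erase (I.equivFin.symm i).1).card ?_ ⟨_, rfl, hi⟩
    rw [← hI1]
    exact Finset.card_erase_lt_of_mem (I.equivFin.symm i).2

end Pool.Agent.VMX.H81
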