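import Pool.Agent.VMX.StmtsA

/-!
# VMX row ALN (alignment)
-/

set_option autoImplicit false

open Matrix Filter Topology

namespace Pool.Agent.VMX.H81

open Pool.Agent.PFS Pool.Agent.PFJ Pool.Agent.NBT Pool.Agent.VMX

section Small

variable {n K : ℕ} {C : Set (V n)}

theorem dm_trans (h : PCone C) {x y z : V n} (h1 : Dm C x y) (h2 : Dm C y z) : Dm C x z := by
  obtain ⟨M1, hM1, h1⟩ := h1
  obtain ⟨M2, hM2, h2⟩ := h2
  refine ⟨M1 * M2, by positivity, ?_⟩
  have h3 : (M1 * M2) • z - x = M1 • (M2 • z - y) + (M1 • y - x) := by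
    rw [smul_sub, smul_smul]; abel
  rw [h3]; exact h.cl_add (h.cl_smul h2 hM1.le) h1

theorem dm_le {x y : V n} (h : y - x ∈ closure C) : Dm C x y :=
  ⟨1, one_pos, by rwa [one_smul]⟩

theorem dm_smul (h : PCone C) {a : ℝ} (ha : 0 < a) {x y : V n} (h1 : Dm C x y) :
    Dm C (a • x) y := by
  obtain ⟨M, hM, h1⟩ := h1
  refine ⟨a * M, by positivity, ?_⟩
  have h2 : (a * M) • y - a • x = a • (M • y - x) := by rw [smul_sub, smul_smul]
  rw [h2]; exact h.cl_smul h1 ha.le

theorem dm_add (h : PCone C) {x x' y : V n} (h1 : Dm C x y) (h2 : Dm C x' y) :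
    Dm C (x + x') y := by
  obtain ⟨M, hM, h1⟩ := h1
  obtain ⟨M', hM', h2⟩ := h2
  refine ⟨M + M', by positivity, ?_⟩
  have h3 : (M + M') • y - (x + x') = (M • y - x) + (M' • y - x') := by rw [add_smul]; abel
  rw [h3]; exact h.cl_add h1 h2

theorem dm_mem (h : PCone C) {x y : V n} (h1 : Dm C x y) (hx : x ∈ C) : y ∈ C := by
  obtain ⟨M, hM, h1⟩ := h1
  exact (h.smul_iff hM).1 (h.mem_of_le hx h1)

theorem dm_mono (h : PCone C) {w : Fin K → V n} (hw : ∀ i, w i ∈ closure C)
    {I J : Finset (Fin K)} (hIJ : I ⊆ J) : Dm C (fS w I) (fS w J) := by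
  refine dm_le ?_
  rw [← fS_add_sdiff w hIJ, add_sub_cancel_left]
  exact fS_cl h hw _

theorem dm_vertex (h : PCone C) {w : Fin K → V n} (hw : ∀ i, w i ∈ closure C)
    {I : Finset (Fin K)} {i : Fin K} (hi : i ∈ I) : Dm C (w i) (fS w I) := by
  rw [← fS_single w i]
  exact dm_mono h hw (Finset.singleton_subset_iff.2 hi)

theorem fS_insert (w : Fin K → V n) {i : Fin K} {I : Finset (Fin K)} (hi : i ∉ I) :
    fS w (insert i I) = w i + fS w I := Finset.sum_insert hi

/-- the sum of the updated tuple -/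
theorem sum_update (w : Fin K → V n) (p : Fin K) (y : V n) :
    ∑ i, Function.update w p y i = y + fS w {p}ᶜ := by
  have h1 := fS_add_compl (Function.update w p y) {p}
  rw [← h1, fS_single, Function.update_self, fS_update w p y (by simp)]

theorem compl_single {p m : Fin K} (hm : m ≠ p) : ({p}ᶜ : Finset (Fin K)) = insert m {p, m}ᶜ := by
  ext i
  simp only [Finset.mem_compl, Finset.mem_singleton, Finset.mem_insert, not_or]
  constructor
  · intro h
    by_cases h' : i = m
    · exact Or.inl h'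
    · exact Or.inr ⟨h, h'⟩
  · rintro (h | h)
    · rw [h]; exact hm
    · exact h.1

theorem fS_compl_single (w : Fin K → V n) {p m : Fin K} (hm : m ≠ p) :
    fS w {p}ᶜ = w m + fS w {p, m}ᶜ := by
  rw [compl_single hm, fS_insert w (by simp)]

/-- a sum which omits a vertex is not in the cone -/
theorem fS_not_mem {w : Fin K → V n} (hw : PES C w) {I : Finset (Fin K)} {l : Fin K}
    (hl : l ∉ I) : fS w I ∉ C := by
  have h1 := hw.bd (fun i => if i ∈ I then 1 else 0) (by intro i; split_ifs <;> norm_num)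
    ⟨l, by simp [hl]⟩
  have h2 : ∑ i, (if i ∈ I then (1 : ℝ) else 0) • w i = fS w I := by
    simp only [ite_smul, one_smul, zero_smul, Finset.sum_ite_mem, Finset.univ_inter]
    rfl
  rwa [h2] at h1

end Small

section Fam

variable {n K : ℕ} {C : Set (V n)} {Γ Γ₀ : Subgroup (GL (Fin n) ℝ)} {p : Fin K}
  {J : Finset (Fin K)} {c : Fin K → ℕ} {F : (Fin K → V n) → Prop}

theorem F_scale (hF : FAM C Γ Γ₀ F) (w : Fin K → V n) (p : Fin K) {a : ℝ} (ha : 0 < a) (y : V n)
    (h : F (Function.update w p y)) : F (Function.update w p (a • y)) := by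
  have h1 := hF.scl _ h (Function.update (fun _ => 1) p a) (by
    intro i
    by_cases hi : i = p
    · subst hi; rw [Function.update_self]; exact ha
    · rw [Function.update_of_ne hi]; exact one_pos)
  have h2 : (fun i => Function.update (fun _ => (1:ℝ)) p a i • Function.update w p y i) =
      Function.update w p (a • y) := by
    funext i
    by_cases hi : i = p
    · subst hi; rw [Function.update_self, Function.update_self, Function.update_self]
    · rw [Function.update_of_ne hi, Function.update_of_ne hi, Function.update_of_ne hi, one_smul]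
  rwa [h2] at h1

theorem rc_fwd (hS : SL C Γ Γ₀ p J c F) {z : Fin K → V n} (hz : F z) {x : V n}
    (h : Rc C F p J z x) : F (Function.update z p x) ∧ Dm C x (fS z (insert p J)) := by
  have hP := hS.cc.toPCone
  have hcl : ∀ i, z i ∈ closure C := fun i => (hS.pes z hz).1.cl i
  induction h with
  | base a ha =>
    refine ⟨F_scale hS.toFAM z p ha (z p) (by rwa [Function.update_eq_self]), ?_⟩
    exact dm_smul hP ha (dm_vertex hP hcl (Finset.mem_insert_self p J))
  | step x x' m hm hx h ih =>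
    obtain ⟨h1, h2⟩ := h
    rw [Function.update_idem] at h1
    have hmp : m ≠ p := fun h => hS.pJ (h ▸ hm)
    rw [Function.update_self, Function.update_of_ne hmp] at h2
    exact ⟨h1, dm_trans hP h2 (dm_add hP ih.2
      (dm_vertex hP hcl (Finset.mem_insert_of_mem hm)))⟩

theorem rc_scale (hS : SL C Γ Γ₀ p J c F) {z : Fin K → V n} {y : V n}
    (h : Rc C F p J z y) {a : ℝ} (ha : 0 < a) : Rc C F p J z (a • y) := by
  cases h with
  | base b hb => rw [smul_smul]; exact Rc.base _ (by positivity)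
  | step x x' m hm hx h =>
    exact Rc.step x (a • y) m hm hx
      ⟨F_scale hS.toFAM _ p ha y h.1, dm_smul hS.cc.toPCone ha h.2⟩

end Fam

/-- one step of the alignment -/
theorem step_aln (hzpf : ZpfStmt) (hzpt : ZptStmt) (hzfe : ZfeStmt) (hces : CesStmt)
    (htes : TesStmt) {n K : ℕ} {C : Set (V n)} {Γ Γ₀ : Subgroup (GL (Fin n) ℝ)} {p : Fin K}
    {J : Finset (Fin K)} {c : Fin K → ℕ} {F : (Fin K → V n) → Prop} (hS : SL C Γ Γ₀ p J c F)
    {z : Fin K → V n} (hz : F z) {x : V n} (hx : F (Function.update z p x)) {m : Fin K}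
    (hm : m ∈ J) {y : V n} (hy : F (Function.update z p y)) :
    ∃ y' : V n, Tm C F p m (Function.update z p y) y' ∧ y' + x + fS z {p, m}ᶜ ∉ C := by
  have hP := hS.cc.toPCone
  have hmp : m ≠ p := fun h => hS.pJ (h ▸ hm)
  set z' := Function.update z p y with hz'
  have hz'm : z' m = z m := Function.update_of_ne hmp _ _
  have hz'p : z' p = y := Function.update_self _ _ _
  have hcl : ∀ i, z i ∈ closure C := fun i => (hS.pes z hz).1.cl i
  have hcl' : ∀ i, z' i ∈ closure C := fun i => (hS.pes z' hy).1.cl i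
  have hpc : p ∉ ({p, m}ᶜ : Finset (Fin K)) := by simp
  have hfz' : fS z' {p, m}ᶜ = fS z {p, m}ᶜ := fS_update z p y hpc
  have hIn : ({p, m}ᶜ : Finset (Fin K)).Nonempty := by
    rw [← Finset.card_pos, Finset.card_compl, Fintype.card_fin]
    have := Finset.card_le_two (a := p) (b := m)
    have := hS.three
    omega
  have hIcn : ({p, m}ᶜᶜ : Finset (Fin K)).Nonempty := ⟨p, by simp⟩
  obtain ⟨φ, g, s, T, L, hφ, hg, hZp, hW⟩ := hzfe n C Γ Γ₀ hS.cc K F hS.toFAM z' hy {p, m}ᶜ hIn
    hIcn (fun k => (k : ℝ)) tendsto_natCast_atTop_atTop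
  set θ : ℕ → ℝ := fun k => ((φ k : ℕ) : ℝ) with hθ
  have hu : fS z' {p, m}ᶜ ∈ closure C := fS_cl hP hcl' _
  have hR : fS z' {p, m}ᶜᶜ ∈ closure C := fS_cl hP hcl' _
  obtain ⟨hTcl, hTu, hTR, -⟩ := hzpf n C Γ hS.cc _ _ hu hR θ g s T L hZp
  obtain ⟨-, hlim, -, -, -⟩ := hzpt n C Γ hS.cc K z' (hS.pes z' hy) {p, m}ᶜ hIn hIcn θ g s T L hZp
  obtain ⟨-, -, hTE, -, hTm⟩ := htes n C Γ Γ₀ K p J c F hS z' hy m hm θ g s T L hg hZp
  set W : Fin K → V n := zW z' {p, m}ᶜ T L with hWdef
  have hWp : W p = T y := by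
    rw [hWdef, zW, if_neg hpc, hz'p]
  have hWm : W m = T (z m) := by
    rw [hWdef, zW, if_neg (by simp), hz'm]
  have hWcl : ∀ i, W i ∈ closure C := fun i => (hS.pes W hW).1.cl i
  have hTf : T (fS z {p, m}ᶜ) = 0 := by rw [← hfz']; exact hTu
  have hxcl : x ∈ closure C := by
    have := (hS.pes _ hx).1.cl p
    rwa [Function.update_self] at this
  -- the sum of the limit tuple
  have hsum : T x + fS W {p}ᶜ ∈ C := by
    have h1 : x + fS z {p}ᶜ ∈ C := by
      rw [← sum_update]; exact (hS.pes _ hx).1.sum_mem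
    obtain ⟨M, hM, h2⟩ := hP.absorb h1 y
    have h3 := hTcl _ (subset_closure h2)
    rw [fS_compl_single z hmp] at h3
    have h4 : T (M • (x + (z m + fS z {p, m}ᶜ)) - y) = M • T x + M • T (z m) - T y := by
      rw [map_sub, map_smul, map_add, map_add, hTf, add_zero, smul_add]
    rw [h4, ← hWm, ← hWp] at h3
    have h5 : (M + 1) • (T x + fS W {p}ᶜ) = (∑ i, W i) + ((M • T x + M • W m - W p) + T x +
        M • fS W {p, m}ᶜ) := by
      have h6 : ∑ i, W i = W p + fS W {p}ᶜ := by
        rw [← fS_add_compl W {p}, fS_single]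
      rw [h6, fS_compl_single W hmp, add_smul, one_smul, smul_add, smul_add]
      abel
    have h7 : (M + 1) • (T x + fS W {p}ᶜ) ∈ C := by
      rw [h5]
      refine hP.add_cl (hS.pes W hW).1.sum_mem ?_
      exact hP.cl_add (hP.cl_add h3 (hTcl _ hxcl)) (hP.cl_smul (fS_cl hP hWcl _) hM.le)
    exact (hP.smul_iff (by positivity)).1 h7
  -- the limit tuple is in the family
  have hFW : F (Function.update W p (T x)) := by
    refine hS.cld (fun k i => s k • act (g k) ((if i ∈ ({p, m}ᶜ : Finset (Fin K)) then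
      Real.exp (θ k) else 1) • Function.update z p x i)) _ ?_ ?_ ?_
    · intro k
      have h1 := hS.scl _ hx (fun i => if i ∈ ({p, m}ᶜ : Finset (Fin K)) then
        Real.exp (θ k) else 1) (by intro i; split_ifs <;> positivity)
      have h2 := hS.inv _ h1 (g k) (hg k)
      exact hS.scl _ h2 (fun _ => s k) (fun _ => hZp.pos k)
    · intro i
      by_cases hi : i = p
      · subst hi
        simp only [Function.update_self, if_neg hpc, one_smul]
        exact hZp.limT (fun _ => x) x tendsto_const_nhds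
      · have h1 := hlim i
        have h2 : z' i = Function.update z p x i := by
          rw [hz', Function.update_of_ne hi, Function.update_of_ne hi]
        rw [h2] at h1
        have h3 : Function.update W p (T x) i = W i := Function.update_of_ne hi _ _
        rw [h3]
        exact h1
    · rw [sum_update]; exact hsum
  have hTmW : Tm C F p m W (T x) := by
    refine ⟨hFW, ?_⟩
    obtain ⟨M, hM, h1, -⟩ := hTR x
    refine ⟨M, hM, ?_⟩
    rw [compl_compl, fS_pair z' hmp.symm, hz'p, hz'm, map_add, ← hWp, ← hWm] at h1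
    exact h1
  obtain ⟨y', hy', hTy'⟩ := hTm _ hTmW
  refine ⟨y', hy', ?_⟩
  intro hbad
  obtain ⟨hc0, -⟩ := hces n C Γ Γ₀ K p J c F hS z' hy m hm
  have hbd := (hS.bd z' hy m hm y').1 hy'
  have hy'E : y' ∈ Es C F p m z' := hbd.1.1
  obtain ⟨M, hM, h1⟩ := hP.absorb hbad (y + z m)
  have h2 := hTcl _ (subset_closure h1)
  have h3 : T (M • (y' + x + fS z {p, m}ᶜ) - (y + z m)) = T ((2 * M) • y' - (y + z m)) := by
    rw [map_sub, map_sub, map_smul, map_smul, map_add, map_add, hTf, add_zero, hTy', mul_comm,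
      mul_smul, two_smul]
  rw [h3] at h2
  have hyE : y + z m ∈ Es C F p m z' := by
    have ha := hc0.1
    have hb := hc0.2.1
    rw [hz'p] at ha
    rw [hz'm] at hb
    exact Submodule.add_mem _ ha hb
  have h4 : (2 * M) • y' - (y + z m) ∈ closure C :=
    (hTE _ (Submodule.sub_mem _ (Submodule.smul_mem _ _ hy'E) hyE)).1 h2
  -- `y'` is a unit
  obtain ⟨hunt, -⟩ := (Pool.Agent.NBT.H13.ibf n C hP K z' (hS.pes z' hy).1).1 {p, m} _
    (hS.box z' hy m hm)
  rw [fS_pair z' hmp.symm, hz'p, hz'm] at hunt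
  refine hbd.1.2.2.2 ⟨hy'E, hbd.1.2.1, fun v hv => ?_⟩
  obtain ⟨M', hM', h5⟩ := hunt.2.2 v hv
  refine ⟨M' * (2 * M), by positivity, ?_⟩
  have h6 : (M' * (2 * M)) • y' - v = M' • ((2 * M) • y' - (y + z m)) + (M' • (y + z m) - v) := by
    rw [smul_sub, smul_smul]; abel
  rw [h6]
  exact hP.cl_add (hP.cl_smul h4 hM'.le) h5

theorem aln (hzpf : ZpfStmt) (hzpt : ZptStmt) (hzfe : ZfeStmt) (hfmc : FmcStmt)
    (hces : CesStmt) (htes : TesStmt) : AlnStmt := by
  intro n C Γ Γ₀ K p J c F hS z hz x
  have hP := hS.cc.toPCone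
  refine ⟨rc_fwd hS hz, ?_⟩
  rintro ⟨hx, hxD⟩
  have hcl : ∀ i, z i ∈ closure C := fun i => (hS.pes z hz).1.cl i
  have hxcl : x ∈ closure C := by
    have := (hS.pes _ hx).1.cl p
    rwa [Function.update_self] at this
  have key : ∀ A : Finset (Fin K), A ⊆ J → ∃ y, Rc C F p J z y ∧
      ∀ a ∈ A, y + x + fS z {p, a}ᶜ ∉ C := by
    intro A
    induction A using Finset.induction_on with
    | empty =>
      intro _
      refine ⟨z p, ?_, by simp⟩
      have := Rc.base (C := C) (F := F) (p := p) (J := J) (z := z) 1 one_pos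
      rwa [one_smul] at this
    | insert m A hmA ih =>
      intro hA
      have hm : m ∈ J := hA (Finset.mem_insert_self m A)
      have hmp : m ≠ p := fun h => hS.pJ (h ▸ hm)
      obtain ⟨y, hy, hya⟩ := ih fun a ha => hA (Finset.mem_insert_of_mem ha)
      have hyF := (rc_fwd hS hz hy).1
      have hycl : y ∈ closure C := by
        have := (hS.pes _ hyF).1.cl p
        rwa [Function.update_self] at this
      obtain ⟨y', hy', hbad⟩ := step_aln hzpf hzpt hzfe hces htes hS hz hx hm hyF
      refine ⟨y', Rc.step y y' m hm hy hy', ?_⟩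
      intro a ha
      rcases Finset.mem_insert.1 ha with ha | ha
      · rw [ha]; exact hbad
      · intro hin
        have haJ : a ∈ J := hA (Finset.mem_insert_of_mem ha)
        have ham : m ≠ a := fun h => hmA (h ▸ ha)
        refine hya a ha ?_
        refine dm_mem hP ?_ hin
        have h1 : Dm C y' (y + z m) := by
          have := hy'.2
          rwa [Function.update_self, Function.update_of_ne hmp] at this
        have hmem : m ∈ ({p, a}ᶜ : Finset (Fin K)) := by simp [hmp, ham]
        have hf := fS_cl hP hcl ({p, a}ᶜ : Finset (Fin K))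
        have h2 : Dm C (z m) (y + x + fS z {p, a}ᶜ) := by
          refine dm_trans hP (dm_vertex hP hcl hmem) (dm_le ?_)
          rw [add_sub_cancel_right]
          exact hP.cl_add hycl hxcl
        have h3 : Dm C y (y + x + fS z {p, a}ᶜ) := by
          refine dm_le ?_
          have : y + x + fS z {p, a}ᶜ - y = x + fS z {p, a}ᶜ := by abel
          rw [this]; exact hP.cl_add hxcl hf
        have h4 : Dm C x (y + x + fS z {p, a}ᶜ) := by
          refine dm_le ?_
          have : y + x + fS z {p, a}ᶜ - x = y + fS z {p, a}ᶜ := by abel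
          rw [this]; exact hP.cl_add hycl hf
        have h5 : Dm C (fS z {p, a}ᶜ) (y + x + fS z {p, a}ᶜ) := by
          refine dm_le ?_
          rw [add_sub_cancel_right]
          exact hP.cl_add hycl hxcl
        exact dm_add hP (dm_add hP (dm_trans hP h1 (dm_add hP h3 h2)) h4) h5
  obtain ⟨y, hy, hya⟩ := key J subset_rfl
  obtain ⟨hyF, hyD⟩ := rc_fwd hS hz hy
  obtain ⟨-, -, -, -, -, h6, -⟩ := hfmc n C Γ hS.cc K hS.three hS.maxc z p (hS.pes z hz)
  obtain ⟨a, ha, hxa⟩ := h6 y x (hS.pes _ hyF) (hS.pes _ hx) (by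
    intro l hl
    by_cases hlJ : l ∈ J
    · exact hya l hlJ
    · intro hin
      have hsub : insert p J ⊆ ({l}ᶜ : Finset (Fin K)) := by
        intro i hi
        rw [Finset.mem_compl, Finset.mem_singleton]
        rintro rfl
        rcases Finset.mem_insert.1 hi with h | h
        · exact hl h
        · exact hlJ h
      have hsub2 : ({p, l}ᶜ : Finset (Fin K)) ⊆ {l}ᶜ := by
        intro i hi
        simp only [Finset.mem_compl, Finset.mem_insert, Finset.mem_singleton, not_or] at hi ⊢
        exact hi.2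
      have h7 := dm_mono hP hcl hsub
      refine fS_not_mem (hS.pes z hz).1 (I := {l}ᶜ) (l := l) (by simp) ?_
      refine dm_mem hP ?_ hin
      exact dm_add hP (dm_add hP (dm_trans hP hyD h7) (dm_trans hP hxD h7))
        (dm_mono hP hcl hsub2))
  rw [hxa]
  exact rc_scale hS hy ha

end Pool.Agent.VMX.H81
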