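import Pool.Agent.VMX.StmtsC
import Pool.Agent.Helper80_NBT.ZLX

/-!
# VMX row LOP (limit operators)
-/

set_option autoImplicit false

open Matrix Filter Topology

namespace Pool.Agent.VMX.H81

open Pool.Agent.PFS Pool.Agent.PFJ Pool.Agent.NBT Pool.Agent.VMX

theorem lop : LopStmt := by
  intro n C Γ hC L x γ t p hγ ht hlim hb
  have hP := hC.toPCone
  obtain ⟨B, hB, hn⟩ := Pool.Agent.NBT.H80.nrm hP
  obtain ⟨R, hR⟩ : ∃ R, ∀ m, ‖t m • act (γ m) (x m)‖ ≤ R := by
    obtain ⟨R, hR⟩ := (Metric.isBounded_range_of_tendsto _ hlim).exists_norm_le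
    exact ⟨R, fun m => hR _ ⟨m, rfl⟩⟩
  obtain ⟨φ, Q, hφ, hQ⟩ := Pool.Agent.NBT.H80.lin_sub L
    (fun m => Pool.Agent.NBT.H80.sl (t m) (γ m)) (by
      intro u hu
      obtain ⟨M, hM⟩ := hb u hu
      refine ⟨B * (|M| * R), Eventually.of_forall fun m => ?_⟩
      rw [Pool.Agent.NBT.H80.sl_apply]
      have e1 : M • (t m • act (γ m) (x m)) - t m • act (γ m) u =
          t m • act (γ m) (M • x m - u) := by
        rw [CC.act_sub, CC.act_smul, smul_sub, smul_comm M]
      have e2 : M • (t m • act (γ m) (x m)) + t m • act (γ m) u =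
          t m • act (γ m) (M • x m + u) := by
        rw [CC.act_add, CC.act_smul, smul_add, smul_comm M]
      have h1 := hn (M • (t m • act (γ m) (x m))) (t m • act (γ m) u)
        (by rw [e1]; exact (hC.sact_cl_iff (hγ m) (ht m)).mpr (hM m).1)
        (by rw [e2]; exact (hC.sact_cl_iff (hγ m) (ht m)).mpr (hM m).2)
      rw [norm_smul M, Real.norm_eq_abs] at h1
      refine h1.trans (mul_le_mul_of_nonneg_left ?_ hB.le)
      exact mul_le_mul_of_nonneg_left (hR m) (abs_nonneg M))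
  refine ⟨φ, Q, hφ, ?_⟩
  intro u hu
  exact hQ id tendsto_id (fun _ => u) u (fun _ => hu) tendsto_const_nhds

end Pool.Agent.VMX.H81
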