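import Pool.Agent.VMX.StmtsC

/-!
# VMX row PQA (the quadruple)
-/

set_option autoImplicit false

open Matrix Filter Topology

namespace Pool.Agent.VMX.H81

open Pool.Agent.PFS Pool.Agent.PFJ Pool.Agent.NBT Pool.Agent.VMX

section Aux

variable {n : ℕ} {C : Set (V n)} {Γ : Subgroup (GL (Fin n) ℝ)}

theorem inv_eig {g : GL (Fin n) ℝ} {s l : ℝ} {x : V n} (hs : 0 < s) (hl : 0 < l)
    (h : s • act g x = l • x) : s⁻¹ • act g⁻¹ x = l⁻¹ • x := by
  have h1 : act g⁻¹ (s • act g x) = act g⁻¹ (l • x) := by rw [h]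
  rw [CC.act_smul, CC.act_inv_act, CC.act_smul] at h1
  have h2 : act g⁻¹ x = l⁻¹ • (s • x) := by
    rw [h1, smul_smul, inv_mul_cancel₀ hl.ne', one_smul]
  rw [h2, smul_smul, smul_smul]
  congr 1
  field_simp

theorem dom (hC : CC C Γ) {g : GL (Fin n) ℝ} (hg : g ∈ Γ) {s α β M : ℝ} {x y : V n}
    (hs : 0 < s) (hα : 0 < α) (hαβ : α < β) (hx : s • act g x = α • x)
    (hy : s • act g y = β • y) (h : M • x - y ∈ closure C) : -y ∈ closure C := by
  have hP := hC.toPCone
  have hβ : 0 < β := hα.trans hαβ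
  have h1 : ∀ j : ℕ, (M * α ^ j) • x - (β ^ j) • y ∈ closure C := by
    intro j
    induction j with
    | zero => simpa using h
    | succ j ih =>
      have h2 := (hC.sact_cl_iff hg hs).mpr ih
      have h3 : s • act g ((M * α ^ j) • x - (β ^ j) • y) =
          (M * α ^ (j + 1)) • x - (β ^ (j + 1)) • y := by
        rw [CC.act_sub, CC.act_smul, CC.act_smul, smul_sub, smul_comm s (M * α ^ j),
          smul_comm s (β ^ j), hx, hy, smul_smul, smul_smul, pow_succ, pow_succ, mul_assoc M]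
      rwa [h3] at h2
  have h4 : ∀ j : ℕ, (M * (α / β) ^ j) • x - y ∈ closure C := by
    intro j
    have hβj : β ^ j ≠ 0 := (pow_pos hβ j).ne'
    have h5 := hP.cl_smul (h1 j) (inv_pos.mpr (pow_pos hβ j)).le
    have h6 : (β ^ j)⁻¹ • ((M * α ^ j) • x - (β ^ j) • y) = (M * (α / β) ^ j) • x - y := by
      rw [smul_sub, smul_smul, smul_smul, inv_mul_cancel₀ hβj, one_smul, div_pow]
      congr 2
      field_simp
    rwa [h6] at h5
  have h7 : Tendsto (fun j : ℕ => (M * (α / β) ^ j) • x - y) atTop (𝓝 ((M * 0) • x - y)) := by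
    refine (Tendsto.smul_const ?_ x).sub_const y
    exact (tendsto_pow_atTop_nhds_zero_of_lt_one (by positivity)
      ((div_lt_one hβ).mpr hαβ)).const_mul M
  have h8 := isClosed_closure.mem_of_tendsto h7 (Eventually.of_forall h4)
  rwa [mul_zero, zero_smul, zero_sub] at h8

theorem lim_dom (hP : PCone C) {κ : ℕ → ℝ} (hκ : Tendsto κ atTop atTop) {u v w : V n} {M : ℝ}
    (h : ∀ᶠ m in atTop, M • (u + κ m • v) - κ m • w ∈ C) : M • v - w ∈ closure C := by
  have h1 : Tendsto (fun m => M • ((κ m)⁻¹ • u + v) - w) atTop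
      (𝓝 (M • ((0 : ℝ) • u + v) - w)) :=
    ((((tendsto_inv_atTop_zero.comp hκ).smul_const u).add_const v).const_smul M).sub_const w
  rw [zero_smul, zero_add] at h1
  refine mem_closure_of_tendsto h1 ?_
  filter_upwards [h, hκ.eventually_gt_atTop 0] with m hm hpos
  have h2 : M • ((κ m)⁻¹ • u + v) - w = (κ m)⁻¹ • (M • (u + κ m • v) - κ m • w) := by
    rw [smul_sub, smul_comm (κ m)⁻¹ M, smul_add (κ m)⁻¹, smul_smul, smul_smul,
      inv_mul_cancel₀ hpos.ne', one_smul, one_smul]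
  rw [h2]
  exact hP.smul _ hm _ (inv_pos.mpr hpos)

end Aux

theorem pqa (hsbg : SbgStmt) : PqaStmt := by
  intro n C Γ hC g hg s la lc lb M a c b f hs hlb hlbc hlca ha hc hb hf hga hgc hgb hM1 hM2 haf
    hcf habc
  have hP := hC.toPCone
  have hH := hC.hul
  have hacl := hH.lamCl a ha
  have hccl := hH.lamCl c hc
  have hbcl := hH.lamCl b hb
  have hfcl := hH.hullCl f hf
  have hgf : act g f ∈ closure C := hC.act_cl hg hfcl
  have hlc : 0 < lc := hlb.trans hlbc
  have hla : 0 < la := hlc.trans hlca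
  have hsi : 0 < s⁻¹ := inv_pos.mpr hs
  have eig : ∀ (l : ℝ) (y : V n), s • act g y = l • y → act g y = (s⁻¹ * l) • y := by
    intro l y h
    rw [mul_smul, ← h, smul_smul, inv_mul_cancel₀ hs.ne', one_smul]
  have ea := eig la a hga
  have ec := eig lc c hgc
  have eb := eig lb b hgb
  set A : ℝ := s⁻¹ * la with hA
  set Cc : ℝ := s⁻¹ * lc with hCc
  set Bb : ℝ := s⁻¹ * lb with hBb
  have hBp : 0 < Bb := by positivity
  have hBC : Bb < Cc := mul_lt_mul_of_pos_left hlbc hsi
  have hCA : Cc < A := mul_lt_mul_of_pos_left hlca hsi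
  set M' : ℝ := |M| + A + Bb⁻¹ with hM'
  have hBi : 0 < Bb⁻¹ := inv_pos.mpr hBp
  have hMM : M ≤ M' := by
    have := le_abs_self M
    linarith
  have hM'A : A ≤ M' := by
    have := abs_nonneg M
    linarith
  have hM'B : 1 ≤ M' * Bb := by
    have h1 : Bb⁻¹ ≤ M' := by
      have := abs_nonneg M
      linarith
    have h2 := mul_le_mul_of_nonneg_right h1 hBp.le
    rwa [inv_mul_cancel₀ hBp.ne'] at h2
  have hM'p : 0 < M' := by
    have := abs_nonneg M
    linarith
  have hM'C : 1 ≤ M' * Cc := hM'B.trans (mul_le_mul_of_nonneg_left hBC.le hM'p.le)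
  have hM'A' : 1 ≤ M' * A := hM'C.trans (mul_le_mul_of_nonneg_left hCA.le hM'p.le)
  set x : ℕ → V n := fun m => a + ((m : ℝ) + 1) • (c + b) + f with hx
  have hxC : ∀ m, x m ∈ C := by
    intro m
    have h1 : x m = (a + f) + ((m : ℝ) + 1) • (c + b) := by simp only [hx]; abel
    rw [h1]
    exact hP.add_cl haf (hP.cl_smul (hP.cl_add hccl hbcl) (by positivity))
  have hxH : ∀ m, x m ∈ Hull C Γ := by
    intro m
    refine hH.add _ (hH.add _ (hH.lamHull a ha) _ (hH.smul _ (hH.add _ (hH.lamHull c hc) _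
      (hH.lamHull b hb)) _ (by positivity))) _ hf
  have hgx : ∀ m, act g (x m) = A • a + ((m : ℝ) + 1) • (Cc • c + Bb • b) + act g f := by
    intro m
    simp only [hx]
    rw [CC.act_add, CC.act_add, CC.act_smul, CC.act_add, ea, ec, eb]
  have hx1 : ∀ m, M' • x m - act g (x m) ∈ closure C := by
    intro m
    have h1 : M' • x m - act g (x m) = (M' - A) • a + ((m : ℝ) + 1) • ((M' - Cc) • c +
        (M' - Bb) • b) + ((M • f - act g f) + (M' - M) • f) := by
      rw [hgx m]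
      simp only [hx]
      module
    rw [h1]
    refine hP.cl_add (hP.cl_add (hP.cl_smul hacl (by linarith)) (hP.cl_smul (hP.cl_add
      (hP.cl_smul hccl (by linarith)) (hP.cl_smul hbcl (by linarith))) (by positivity)))
      (hP.cl_add hM1 (hP.cl_smul hfcl (by linarith)))
  have hx2 : ∀ m, M' • act g (x m) - x m ∈ closure C := by
    intro m
    have h1 : M' • act g (x m) - x m = (M' * A - 1) • a + ((m : ℝ) + 1) • ((M' * Cc - 1) • c +
        (M' * Bb - 1) • b) + ((M • act g f - f) + (M' - M) • act g f) := by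
      rw [hgx m]
      simp only [hx]
      module
    rw [h1]
    refine hP.cl_add (hP.cl_add (hP.cl_smul hacl (by linarith)) (hP.cl_smul (hP.cl_add
      (hP.cl_smul hccl (by linarith)) (hP.cl_smul hbcl (by linarith))) (by positivity)))
      (hP.cl_add hM2 (hP.cl_smul hgf (by linarith)))
  obtain ⟨φ, γ, t, p, hφ, hγ, hγg, ht, hp, hlim⟩ := hsbg n C Γ hC g hg x M' hxC hxH hx1 hx2
  set κ : ℕ → ℝ := fun m => (φ m : ℝ) + 1 with hκ
  have hκp : ∀ m, 0 < κ m := fun m => by simp only [hκ]; positivity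
  have hκ1 : ∀ m, 1 ≤ κ m := fun m => by
    simp only [hκ]
    have : (0 : ℝ) ≤ (φ m : ℝ) := Nat.cast_nonneg _
    linarith
  set X : ℕ → Fin 4 → V n := fun m => ![t m • act (γ m) a, (κ m * t m) • act (γ m) c,
    (κ m * t m) • act (γ m) b, t m • act (γ m) f] with hX
  have X0 : ∀ m, X m 0 = t m • act (γ m) a := fun m => rfl
  have X1 : ∀ m, X m 1 = (κ m * t m) • act (γ m) c := fun m => rfl
  have X2 : ∀ m, X m 2 = (κ m * t m) • act (γ m) b := fun m => rfl
  have X3 : ∀ m, X m 3 = t m • act (γ m) f := fun m => rfl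
  have hXH : ∀ m i, X m i ∈ Hull C Γ := by
    intro m i
    have hkt : 0 < κ m * t m := mul_pos (hκp m) (ht m)
    fin_cases i
    · exact hH.smul _ (hH.act _ (hH.lamHull a ha) _ (hγ m)) _ (ht m)
    · exact hH.smul _ (hH.act _ (hH.lamHull c hc) _ (hγ m)) _ hkt
    · exact hH.smul _ (hH.act _ (hH.lamHull b hb) _ (hγ m)) _ hkt
    · exact hH.smul _ (hH.act _ hf _ (hγ m)) _ (ht m)
  have hsum : ∀ m, ∑ i, X m i = t m • act (γ m) (x (φ m)) := by
    intro m
    rw [Fin.sum_univ_four, X0, X1, X2, X3]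
    have h1 : x (φ m) = a + κ m • (c + b) + f := rfl
    rw [h1, CC.act_add, CC.act_add, CC.act_smul, CC.act_add]
    module
  obtain ⟨ψ, w, hψ, hw, hwp, hpes⟩ := Pool.Agent.PFS.H37.limF n C Γ hC (Fin 4)
    (by rw [Fintype.card_fin]; norm_num) X p hXH hp (by simp only [hsum]; exact hlim)
  have hκψ : Tendsto (fun m => κ (ψ m)) atTop atTop := by
    have h1 : Tendsto (fun m => (φ (ψ m) : ℝ)) atTop atTop :=
      tendsto_natCast_atTop_atTop.comp ((hφ.comp hψ).tendsto_atTop)
    exact tendsto_atTop_add_const_right _ 1 h1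
  have hw4 : w 0 + w 1 + w 2 + w 3 = p := by rw [← hwp, Fin.sum_univ_four]
  have hb0 : b ≠ 0 := hH.lamNe b hb
  have hc0 : c ≠ 0 := hH.lamNe c hc
  have omit0 : w 1 + w 2 + w 3 ∉ C := by
    intro hin
    have h1 : Tendsto (fun m => X (ψ m) 1 + X (ψ m) 2 + X (ψ m) 3) atTop
        (𝓝 (w 1 + w 2 + w 3)) := ((hw 1).add (hw 2)).add (hw 3)
    obtain ⟨m, hm⟩ := (h1.eventually (hP.isOpen.mem_nhds hin)).exists
    have h2 : X (ψ m) 1 + X (ψ m) 2 + X (ψ m) 3 =
        t (ψ m) • act (γ (ψ m)) (κ (ψ m) • (c + b) + f) := by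
      rw [X1, X2, X3, CC.act_add, CC.act_smul, CC.act_add]
      module
    rw [h2] at hm
    exact hcf _ (hκp _).le ((hC.sact_mem_iff (hγ _) (ht _)).mp hm)
  have omit3 : w 0 + w 1 + w 2 ∉ C := by
    intro hin
    have h1 : Tendsto (fun m => X (ψ m) 0 + X (ψ m) 1 + X (ψ m) 2) atTop
        (𝓝 (w 0 + w 1 + w 2)) := ((hw 0).add (hw 1)).add (hw 2)
    obtain ⟨m, hm⟩ := (h1.eventually (hP.isOpen.mem_nhds hin)).exists
    have h2 : X (ψ m) 0 + X (ψ m) 1 + X (ψ m) 2 =
        t (ψ m) • act (γ (ψ m)) (a + κ (ψ m) • (c + b)) := by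
      rw [X0, X1, X2, CC.act_add, CC.act_smul, CC.act_add]
      module
    rw [h2] at hm
    have h3 := (hC.sact_mem_iff (hγ _) (ht _)).mp hm
    have h4 : κ (ψ m) • (a + c + b) = (a + κ (ψ m) • (c + b)) + (κ (ψ m) - 1) • a := by
      module
    have h5 : κ (ψ m) • (a + c + b) ∈ C := by
      rw [h4]
      exact hP.add_cl h3 (hP.cl_smul hacl (by have := hκ1 (ψ m); linarith))
    exact habc ((hP.smul_iff (hκp _)).mp h5)
  have omit2 : w 0 + w 1 + w 3 ∉ C := by
    intro hin
    obtain ⟨M1, hM1p, h0⟩ := hP.absorb hin (w 2)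
    have h1 : Tendsto (fun m => M1 • (X (ψ m) 0 + X (ψ m) 1 + X (ψ m) 3) - X (ψ m) 2) atTop
        (𝓝 (M1 • (w 0 + w 1 + w 3) - w 2)) :=
      ((((hw 0).add (hw 1)).add (hw 3)).const_smul M1).sub (hw 2)
    have h2 := h1.eventually (hP.isOpen.mem_nhds h0)
    have h3 : M1 • c - b ∈ closure C := by
      refine lim_dom hP hκψ (u := a + f) ?_
      filter_upwards [h2] with m hm
      have h4 : M1 • (X (ψ m) 0 + X (ψ m) 1 + X (ψ m) 3) - X (ψ m) 2 =
          t (ψ m) • act (γ (ψ m)) (M1 • ((a + f) + κ (ψ m) • c) - κ (ψ m) • b) := by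
        rw [X0, X1, X2, X3, CC.act_sub, CC.act_smul, CC.act_smul, CC.act_add, CC.act_add,
          CC.act_smul]
        module
      rw [h4] at hm
      exact (hC.sact_mem_iff (hγ _) (ht _)).mp hm
    have h5 := dom hC (Γ.inv_mem hg) hsi (inv_pos.mpr hlc)
      ((inv_lt_inv₀ hlc hlb).mpr hlbc) (inv_eig hs hlc hgc) (inv_eig hs hlb hgb) h3
    exact hb0 (hP.salient b hbcl h5)
  have omit1 : w 0 + w 2 + w 3 ∉ C := by
    intro hin
    obtain ⟨M1, hM1p, h0⟩ := hP.absorb hin (w 1)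
    have h1 : Tendsto (fun m => M1 • (X (ψ m) 0 + X (ψ m) 2 + X (ψ m) 3) - X (ψ m) 1) atTop
        (𝓝 (M1 • (w 0 + w 2 + w 3) - w 1)) :=
      ((((hw 0).add (hw 2)).add (hw 3)).const_smul M1).sub (hw 1)
    have h2 := h1.eventually (hP.isOpen.mem_nhds h0)
    have h3 : M1 • b - c ∈ closure C := by
      refine lim_dom hP hκψ (u := a + f) ?_
      filter_upwards [h2] with m hm
      have h4 : M1 • (X (ψ m) 0 + X (ψ m) 2 + X (ψ m) 3) - X (ψ m) 1 =
          t (ψ m) • act (γ (ψ m)) (M1 • ((a + f) + κ (ψ m) • b) - κ (ψ m) • c) := by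
        rw [X0, X1, X2, X3, CC.act_sub, CC.act_smul, CC.act_smul, CC.act_add, CC.act_add,
          CC.act_smul]
        module
      rw [h4] at hm
      exact (hC.sact_mem_iff (hγ _) (ht _)).mp hm
    exact hc0 (hP.salient c hccl (dom hC hg hs hlb hlbc hgb hgc h3))
  have hpesw : IsPES C Γ w := by
    refine hpes ?_
    intro i
    fin_cases i
    · have h1 : ∑ j ∈ Finset.univ.erase (0 : Fin 4), w j = w 1 + w 2 + w 3 := by
        rw [show Finset.univ.erase (0 : Fin 4) = {1, 2, 3} by decide,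
          Finset.sum_insert (by decide), Finset.sum_insert (by decide), Finset.sum_singleton,
          add_assoc]
      show ∑ j ∈ Finset.univ.erase (0 : Fin 4), w j ∉ C
      rw [h1]; exact omit0
    · have h1 : ∑ j ∈ Finset.univ.erase (1 : Fin 4), w j = w 0 + w 2 + w 3 := by
        rw [show Finset.univ.erase (1 : Fin 4) = {0, 2, 3} by decide,
          Finset.sum_insert (by decide), Finset.sum_insert (by decide), Finset.sum_singleton,
          add_assoc]
      show ∑ j ∈ Finset.univ.erase (1 : Fin 4), w j ∉ C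
      rw [h1]; exact omit1
    · have h1 : ∑ j ∈ Finset.univ.erase (2 : Fin 4), w j = w 0 + w 1 + w 3 := by
        rw [show Finset.univ.erase (2 : Fin 4) = {0, 1, 3} by decide,
          Finset.sum_insert (by decide), Finset.sum_insert (by decide), Finset.sum_singleton,
          add_assoc]
      show ∑ j ∈ Finset.univ.erase (2 : Fin 4), w j ∉ C
      rw [h1]; exact omit2
    · have h1 : ∑ j ∈ Finset.univ.erase (3 : Fin 4), w j = w 0 + w 1 + w 2 := by
        rw [show Finset.univ.erase (3 : Fin 4) = {0, 1, 2} by decide,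
          Finset.sum_insert (by decide), Finset.sum_insert (by decide), Finset.sum_singleton,
          add_assoc]
      show ∑ j ∈ Finset.univ.erase (3 : Fin 4), w j ∉ C
      rw [h1]; exact omit3
  refine ⟨fun m => φ (ψ m), fun m => γ (ψ m), fun m => t (ψ m), w 0, w 1, w 2, w 3,
    hφ.comp hψ, fun m => hγ _, fun m => hγg _, fun m => ht _, hw 0, hw 1, hw 2, hw 3, ?_, ?_⟩
  · rw [hw4]; exact hp
  · have h1 : ![w 0, w 1, w 2, w 3] = w := by
      funext i
      fin_cases i <;> rfl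
    rw [h1]; exact hpesw

end Pool.Agent.VMX.H81
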